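import Pool.Agent.V5helper14.Sep.Stm

/-!
# Job IND of project SE: linear independence of the rows of any `K + 2` members
-/

set_option autoImplicit false

namespace Pool.Agent.V5helper62.SE

open Filter Pool.Agent.V5helper14.Hel Pool.Agent.V5helper14.Sep

lemma cc_pos {K : ℕ} (m : Fin K) : 0 < cc m := by
  unfold cc
  positivity

lemma cc_le {K : ℕ} (m : Fin K) : cc m ≤ 1 / 20 := by
  unfold cc
  apply one_div_le_one_div_of_le (by norm_num)
  have : (0 : ℝ) ≤ (m : ℕ) := Nat.cast_nonneg _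
  linarith

lemma cc_inj {K : ℕ} {m m' : Fin K} (h : cc m = cc m') : m = m' := by
  unfold cc at h
  have h0 : (0 : ℝ) < 20 + (m : ℕ) := by positivity
  have h1 : (0 : ℝ) < 20 + (m' : ℕ) := by positivity
  rw [div_eq_div_iff h0.ne' h1.ne'] at h
  have h2 : ((m : ℕ) : ℝ) = ((m' : ℕ) : ℝ) := by linarith
  exact Fin.ext (by exact_mod_cast h2)

lemma gg_nonneg {K : ℕ} (j : Fin 4) (m : Fin K) : 0 ≤ gg j m := by
  have := cc_pos m
  unfold gg
  fin_cases j <;> simp [this.le]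

lemma ss_pos (K : ℕ) (j : Fin 4) : 0 < ss K j := by
  unfold ss
  have : 0 ≤ ∑ m : Fin K, gg j m := Finset.sum_nonneg fun m _ => gg_nonneg j m
  linarith

lemma sum_gg {K : ℕ} (α : Fin 4 → ℝ) (m : Fin K) :
    ∑ j, α j * gg j m = α 2 * cc m + α 3 := by
  rw [Fin.sum_univ_four]
  simp [gg]

lemma pair {q : ℕ} {a b : ℝ} {x y : Fin q → ℝ} (hxy : x ≠ y) (h : a + b = 0)
    (h' : ∀ l, a * x l + b * y l = 0) : a = 0 ∧ b = 0 := by
  have hb : b = -a := by linarith
  subst hb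
  by_cases ha : a = 0
  · simp [ha]
  · exfalso
    apply hxy
    funext l
    have h1 : a * (x l - y l) = 0 := by
      have := h' l
      linarith
    rcases mul_eq_zero.1 h1 with h2 | h2
    · exact absurd h2 ha
    · linarith

/-- the core: the four coefficients vanish -/
lemma core {K q : ℕ} (X : Fin 4 → Fin q → ℝ) (hX : ∀ i j, i ≠ j → X i ≠ X j)
    (hm : ∀ m : Fin K, (1 - cc m) • X 0 ≠ X 2 - cc m • X 3 ∧ (1 - cc m) • X 1 ≠ X 2 - cc m • X 3)
    (α : Fin 4 → ℝ) (h0 : α 0 + α 1 + α 2 + α 3 = 0)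
    (h1 : ∀ l, α 0 * X 0 l + α 1 * X 1 l + α 2 * X 2 l + α 3 * X 3 l = 0)
    (h2 : (∃ m m' : Fin K, m ≠ m' ∧ α 2 * cc m + α 3 = 0 ∧ α 2 * cc m' + α 3 = 0) ∨
      (∃ (m : Fin K) (j : Fin 4), α 2 * cc m + α 3 = 0 ∧ α j = 0) ∨
      (∃ i j : Fin 4, i < j ∧ α i = 0 ∧ α j = 0)) :
    α 0 = 0 ∧ α 1 = 0 ∧ α 2 = 0 ∧ α 3 = 0 := by
  have last : α 2 = 0 → α 3 = 0 → α 0 = 0 ∧ α 1 = 0 ∧ α 2 = 0 ∧ α 3 = 0 := by
    intro h h'
    rw [h, h'] at h0
    have := pair (hX 0 1 (by decide)) (a := α 0) (b := α 1) (by linarith) (fun l => by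
      have := h1 l
      rw [h, h'] at this
      linarith)
    exact ⟨this.1, this.2, h, h'⟩
  rcases h2 with ⟨m, m', hmm, e1, e2⟩ | ⟨m, j, e1, e2⟩ | ⟨i, j, hij, e1, e2⟩
  · have hc : cc m - cc m' ≠ 0 := fun h => hmm (cc_inj (by linarith))
    have h3 : α 2 * (cc m - cc m') = 0 := by linarith
    have h4 : α 2 = 0 := by
      rcases mul_eq_zero.1 h3 with h | h
      · exact h
      · exact absurd h hc
    exact last h4 (by rw [h4] at e1; linarith)
  · have hc := cc_pos m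
    fin_cases j
    · -- j = 0
      simp only [Fin.zero_eta, Fin.isValue] at e2
      by_cases h4 : α 2 = 0
      · exact last h4 (by rw [h4] at e1; linarith)
      · exfalso
        apply (hm m).2
        funext l
        simp only [Pi.smul_apply, Pi.sub_apply, smul_eq_mul]
        have h5 := h1 l
        have h6 : α 3 = -(α 2 * cc m) := by linarith
        have h7 : α 1 = -(α 2 * (1 - cc m)) := by
          rw [e2, h6] at h0
          linarith
        rw [e2, h6, h7] at h5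
        have h8 : α 2 * (X 2 l - cc m * X 3 l - (1 - cc m) * X 1 l) = 0 := by linarith
        rcases mul_eq_zero.1 h8 with h | h
        · exact absurd h h4
        · linarith
    · -- j = 1
      simp only [Fin.mk_one, Fin.isValue] at e2
      by_cases h4 : α 2 = 0
      · exact last h4 (by rw [h4] at e1; linarith)
      · exfalso
        apply (hm m).1
        funext l
        simp only [Pi.smul_apply, Pi.sub_apply, smul_eq_mul]
        have h5 := h1 l
        have h6 : α 3 = -(α 2 * cc m) := by linarith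
        have h7 : α 0 = -(α 2 * (1 - cc m)) := by
          rw [e2, h6] at h0
          linarith
        rw [e2, h6, h7] at h5
        have h8 : α 2 * (X 2 l - cc m * X 3 l - (1 - cc m) * X 0 l) = 0 := by linarith
        rcases mul_eq_zero.1 h8 with h | h
        · exact absurd h h4
        · linarith
    · -- j = 2
      simp only [Fin.reduceFinMk, Fin.isValue] at e2
      exact last e2 (by rw [e2] at e1; linarith)
    · -- j = 3
      simp only [Fin.reduceFinMk, Fin.isValue] at e2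
      have h3 : α 2 * cc m = 0 := by linarith
      rcases mul_eq_zero.1 h3 with h | h
      · exact last h e2
      · exact absurd h hc.ne'
  · have fin : ∀ a b c d : Fin 4, c ≠ d → α a = 0 → α b = 0 →
        α a + α b + α c + α d = 0 →
        (∀ l, α a * X a l + α b * X b l + α c * X c l + α d * X d l = 0) →
        α a = 0 ∧ α b = 0 ∧ α c = 0 ∧ α d = 0 := by
      intro a b c d hcd ha hb hs hl
      rw [ha, hb] at hs
      have := pair (hX c d hcd) (a := α c) (b := α d) (by linarith) (fun l => by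
        have := hl l
        rw [ha, hb] at this
        linarith)
      exact ⟨ha, hb, this.1, this.2⟩
    have key : ∀ i j : Fin 4, i < j → (i = 0 ∧ j = 1) ∨ (i = 0 ∧ j = 2) ∨ (i = 0 ∧ j = 3) ∨
        (i = 1 ∧ j = 2) ∨ (i = 1 ∧ j = 3) ∨ (i = 2 ∧ j = 3) := by decide
    rcases key i j hij with ⟨rfl, rfl⟩ | ⟨rfl, rfl⟩ | ⟨rfl, rfl⟩ | ⟨rfl, rfl⟩ | ⟨rfl, rfl⟩ | ⟨rfl, rfl⟩
    · obtain ⟨a, b, c, d⟩ := fin 0 1 2 3 (by decide) e1 e2 (by linarith) (fun l => by
        have := h1 l; linarith)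
      exact ⟨a, b, c, d⟩
    · obtain ⟨a, b, c, d⟩ := fin 0 2 1 3 (by decide) e1 e2 (by linarith) (fun l => by
        have := h1 l; linarith)
      exact ⟨a, c, b, d⟩
    · obtain ⟨a, b, c, d⟩ := fin 0 3 1 2 (by decide) e1 e2 (by linarith) (fun l => by
        have := h1 l; linarith)
      exact ⟨a, c, d, b⟩
    · obtain ⟨a, b, c, d⟩ := fin 1 2 0 3 (by decide) e1 e2 (by linarith) (fun l => by
        have := h1 l; linarith)
      exact ⟨c, a, b, d⟩
    · obtain ⟨a, b, c, d⟩ := fin 1 3 0 2 (by decide) e1 e2 (by linarith) (fun l => by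
        have := h1 l; linarith)
      exact ⟨c, a, d, b⟩
    · exact last e1 e2

lemma pts_castAdd {K q : ℕ} (X : Fin 4 → Fin q → ℝ) (m : Fin K) :
    pts (K := K) X (Fin.castAdd 4 m) = apx m := by
  simp [pts]

lemma pts_natAdd {K q : ℕ} (X : Fin 4 → Fin q → ℝ) (j : Fin 4) :
    pts (K := K) X (Fin.natAdd K j) = emb j (X j) := by
  simp [pts]

/-- the relation, read off coordinate by coordinate -/
lemma rel {K q : ℕ} (X : Fin 4 → Fin q → ℝ) (β : Fin (K + 4) → ℝ)
    (h : ∑ i, β i • row (pts (K := K) X i) = 0) :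
    (∑ j : Fin 4, β (Fin.natAdd K j) * (ss K j)⁻¹ = 0) ∧
    (∀ l, ∑ j : Fin 4, β (Fin.natAdd K j) * (ss K j)⁻¹ * X j l = 0) ∧
    (∀ m, β (Fin.castAdd 4 m) = -∑ j : Fin 4, β (Fin.natAdd K j) * (ss K j)⁻¹ * gg j m) := by
  have hA : ∀ m, β (Fin.castAdd 4 m) =
      -∑ j : Fin 4, β (Fin.natAdd K j) * (ss K j)⁻¹ * gg j m := by
    intro m
    have h1 := congrFun h (Fin.succ (Fin.castAdd q m))
    rw [Finset.sum_apply, Fin.sum_univ_add] at h1
    simp only [Pi.smul_apply, row, Fin.cons_succ, smul_eq_mul, pts_castAdd, pts_natAdd, apx, emb,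
      Fin.append_left, Pi.zero_apply] at h1
    have h2 : ∑ x : Fin K, β (Fin.castAdd 4 x) * (Pi.single x (1 : ℝ) : Fin K → ℝ) m =
        β (Fin.castAdd 4 m) := by
      rw [Finset.sum_eq_single m]
      · simp
      · intro b _ hb
        simp [Pi.single_apply, Ne.symm hb]
      · intro hb
        exact absurd (Finset.mem_univ _) hb
    rw [h2] at h1
    have h3 : ∑ j : Fin 4, β (Fin.natAdd K j) * ((ss K j)⁻¹ * gg j m) =
        ∑ j : Fin 4, β (Fin.natAdd K j) * (ss K j)⁻¹ * gg j m :=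
      Finset.sum_congr rfl fun j _ => by ring
    rw [h3] at h1
    linarith
  refine ⟨?_, ?_, hA⟩
  · have h1 := congrFun h 0
    rw [Finset.sum_apply, Fin.sum_univ_add] at h1
    simp only [Pi.smul_apply, row, Fin.cons_zero, smul_eq_mul, mul_one, Pi.zero_apply] at h1
    rw [Finset.sum_congr rfl fun m _ => hA m, Finset.sum_neg_distrib, Finset.sum_comm] at h1
    have h2 : ∀ j : Fin 4, β (Fin.natAdd K j) = β (Fin.natAdd K j) * (ss K j)⁻¹ +
        ∑ m : Fin K, β (Fin.natAdd K j) * (ss K j)⁻¹ * gg j m := by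
      intro j
      rw [← Finset.mul_sum]
      have h3 : β (Fin.natAdd K j) * (ss K j)⁻¹ * ss K j = β (Fin.natAdd K j) :=
        inv_mul_cancel_right₀ (ss_pos K j).ne' _
      have h4 : ss K j = 1 + ∑ m : Fin K, gg j m := rfl
      nth_rewrite 1 [← h3]
      nth_rewrite 2 [h4]
      ring
    rw [Finset.sum_congr rfl fun j _ => h2 j, Finset.sum_add_distrib] at h1
    linarith
  · intro l
    have h1 := congrFun h (Fin.succ (Fin.natAdd K l))
    rw [Finset.sum_apply, Fin.sum_univ_add] at h1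
    simp only [Pi.smul_apply, row, Fin.cons_succ, smul_eq_mul, pts_castAdd, pts_natAdd, apx, emb,
      Fin.append_right, Pi.zero_apply, mul_zero, Finset.sum_const_zero, zero_add] at h1
    rw [← h1]
    exact Finset.sum_congr rfl fun j _ => by ring

theorem ind1 (K q : ℕ) (X : Fin 4 → Fin q → ℝ) (hX : ∀ i j, i ≠ j → X i ≠ X j)
    (hm : ∀ m : Fin K, (1 - cc m) • X 0 ≠ X 2 - cc m • X 3 ∧ (1 - cc m) • X 1 ≠ X 2 - cc m • X 3)
    (β : Fin (K + 4) → ℝ) (hz : ∃ i j, i ≠ j ∧ β i = 0 ∧ β j = 0)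
    (hβ : ∑ i, β i • row (pts (K := K) X i) = 0) : β = 0 := by
  obtain ⟨h0, h1, h2⟩ := rel X β hβ
  set α : Fin 4 → ℝ := fun j => β (Fin.natAdd K j) * (ss K j)⁻¹ with hα
  have h2' : ∀ m : Fin K, β (Fin.castAdd 4 m) = -(α 2 * cc m + α 3) := by
    intro m
    rw [h2 m, ← sum_gg α m]
  have hseg : ∀ j : Fin 4, β (Fin.natAdd K j) = 0 → α j = 0 := by
    intro j hj
    simp [hα, hj]
  have hapx : ∀ m : Fin K, β (Fin.castAdd 4 m) = 0 → α 2 * cc m + α 3 = 0 := by
    intro m hm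
    have := h2' m
    linarith
  have hcase : (∃ m m' : Fin K, m ≠ m' ∧ α 2 * cc m + α 3 = 0 ∧ α 2 * cc m' + α 3 = 0) ∨
      (∃ (m : Fin K) (j : Fin 4), α 2 * cc m + α 3 = 0 ∧ α j = 0) ∨
      (∃ i j : Fin 4, i < j ∧ α i = 0 ∧ α j = 0) := by
    obtain ⟨i, j, hij, hi, hj⟩ := hz
    induction i using Fin.addCases with
    | left m =>
      induction j using Fin.addCases with
      | left m' =>
        exact Or.inl ⟨m, m', fun h => hij (by rw [h]), hapx _ hi, hapx _ hj⟩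
      | right j =>
        exact Or.inr (Or.inl ⟨m, j, hapx _ hi, hseg _ hj⟩)
    | right i =>
      induction j using Fin.addCases with
      | left m' =>
        exact Or.inr (Or.inl ⟨m', i, hapx _ hj, hseg _ hi⟩)
      | right j =>
        have hne : i ≠ j := fun h => hij (by rw [h])
        rcases lt_or_gt_of_ne hne with h | h
        · exact Or.inr (Or.inr ⟨i, j, h, hseg _ hi, hseg _ hj⟩)
        · exact Or.inr (Or.inr ⟨j, i, h, hseg _ hj, hseg _ hi⟩)
  have h0' : α 0 + α 1 + α 2 + α 3 = 0 := by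
    rw [Fin.sum_univ_four] at h0
    exact h0
  have h1' : ∀ l, α 0 * X 0 l + α 1 * X 1 l + α 2 * X 2 l + α 3 * X 3 l = 0 := by
    intro l
    have := h1 l
    rw [Fin.sum_univ_four] at this
    exact this
  obtain ⟨a0, a1, a2, a3⟩ := core X hX hm α h0' h1' hcase
  have hall : ∀ j, α j = 0 := by
    intro j
    fin_cases j
    · exact a0
    · exact a1
    · exact a2
    · exact a3
  funext i
  induction i using Fin.addCases with
  | left m =>
    rw [h2' m, a2, a3]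
    simp
  | right j =>
    have h3 : β (Fin.natAdd K j) * (ss K j)⁻¹ = 0 := hall j
    rcases mul_eq_zero.1 h3 with h | h
    · simpa using h
    · exact absurd h (inv_ne_zero (ss_pos K j).ne')

/-- coordinates of points of the segments -/
lemma seg_coord {X : Fin 4 → Fin 2 → ℝ} (hX : ∀ j, X j ∈ sgm4 j) :
    (7 * X 0 1 = 2 * X 0 0 - 20 ∧ -4 ≤ X 0 0 ∧ X 0 0 ≤ 10) ∧
    (X 1 0 = -1 ∧ -1 ≤ X 1 1 ∧ X 1 1 ≤ 1) ∧
    (X 2 0 = 1 ∧ -1 ≤ X 2 1 ∧ X 2 1 ≤ 1) ∧
    (2 * X 3 1 = -(X 3 0 + 20) ∧ -20 ≤ X 3 0 ∧ X 3 0 ≤ 20) := by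
  refine ⟨?_, ?_, ?_, ?_⟩
  · obtain ⟨a, b, ha, hb, hab, h⟩ := hX 0
    have e0 := congrFun h 0
    have e1 := congrFun h 1
    simp [endU, endV] at e0 e1
    refine ⟨?_, ?_, ?_⟩ <;> linarith
  · obtain ⟨a, b, ha, hb, hab, h⟩ := hX 1
    have e0 := congrFun h 0
    have e1 := congrFun h 1
    simp [endU, endV] at e0 e1
    refine ⟨?_, ?_, ?_⟩ <;> linarith
  · obtain ⟨a, b, ha, hb, hab, h⟩ := hX 2
    have e0 := congrFun h 0
    have e1 := congrFun h 1
    simp [endU, endV] at e0 e1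
    refine ⟨?_, ?_, ?_⟩ <;> linarith
  · obtain ⟨a, b, ha, hb, hab, h⟩ := hX 3
    have e0 := congrFun h 0
    have e1 := congrFun h 1
    simp [endU, endV] at e0 e1
    refine ⟨?_, ?_, ?_⟩ <;> linarith

lemma ne_of_lt_cases {q : ℕ} {X : Fin 4 → Fin q → ℝ} (h : ∀ i j, i < j → X i ≠ X j) :
    ∀ i j, i ≠ j → X i ≠ X j := by
  intro i j hij
  rcases lt_or_gt_of_ne hij with h1 | h1
  · exact h i j h1
  · exact (h j i h1).symm

theorem ind2 (K : ℕ) (X : Fin 4 → Fin 2 → ℝ) (hX : ∀ j, X j ∈ sgm4 j) :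
    (∀ i j, i ≠ j → X i ≠ X j) ∧
    (∀ m : Fin K, (1 - cc m) • X 0 ≠ X 2 - cc m • X 3 ∧
      (1 - cc m) • X 1 ≠ X 2 - cc m • X 3) := by
  obtain ⟨⟨p1, p2, p3⟩, ⟨q1, q2, q3⟩, ⟨r1, r2, r3⟩, ⟨s1, s2, s3⟩⟩ := seg_coord hX
  refine ⟨ne_of_lt_cases ?_, ?_⟩
  · have key : ∀ i j : Fin 4, i < j → (i = 0 ∧ j = 1) ∨ (i = 0 ∧ j = 2) ∨ (i = 0 ∧ j = 3) ∨
        (i = 1 ∧ j = 2) ∨ (i = 1 ∧ j = 3) ∨ (i = 2 ∧ j = 3) := by decide
    intro i j hij he
    rcases key i j hij with ⟨rfl, rfl⟩ | ⟨rfl, rfl⟩ | ⟨rfl, rfl⟩ | ⟨rfl, rfl⟩ | ⟨rfl, rfl⟩ | ⟨rfl, rfl⟩ <;>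
    · have e0 := congrFun he 0
      have e1 := congrFun he 1
      linarith
  · intro m
    have hc := cc_pos m
    have hc' := cc_le m
    constructor
    · intro he
      have e0 := congrFun he 0
      have e1 := congrFun he 1
      simp only [Pi.smul_apply, Pi.sub_apply, smul_eq_mul] at e0 e1
      have h1 : 7 * X 2 1 + 18 = cc m * (7 * X 3 1 - 2 * X 3 0 + 20) := by
        have h2 : (1 - cc m) * (7 * X 0 1) = (1 - cc m) * (2 * X 0 0 - 20) := by rw [p1]
        rw [r1] at e0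
        linarith
      have h2 : 7 * X 3 1 - 2 * X 3 0 + 20 ≤ 170 := by linarith
      have h3 : cc m * (7 * X 3 1 - 2 * X 3 0 + 20) ≤ cc m * 170 :=
        mul_le_mul_of_nonneg_left h2 hc.le
      linarith
    · intro he
      have e0 := congrFun he 0
      simp only [Pi.smul_apply, Pi.sub_apply, smul_eq_mul] at e0
      rw [q1, r1] at e0
      have h3 : cc m * X 3 0 ≤ cc m * 20 := mul_le_mul_of_nonneg_left s3 hc.le
      linarith

theorem ind3 (K : ℕ) : let X : Fin 4 → Fin 1 → ℝ := fun j _ => ((j : ℕ) : ℝ) + 1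
    (∀ i j, i ≠ j → X i ≠ X j) ∧
    (∀ m : Fin K, (1 - cc m) • X 0 ≠ X 2 - cc m • X 3 ∧
      (1 - cc m) • X 1 ≠ X 2 - cc m • X 3) := by
  intro X
  refine ⟨?_, ?_⟩
  · intro i j hij he
    have e0 := congrFun he 0
    simp only [X] at e0
    have h2 : ((i : ℕ) : ℝ) = ((j : ℕ) : ℝ) := by linarith
    exact hij (Fin.ext (by exact_mod_cast h2))
  · intro m
    have hc := cc_pos m
    have hc' := cc_le m
    constructor
    · intro he
      have e0 := congrFun he 0
      simp [X] at e0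
      linarith
    · intro he
      have e0 := congrFun he 0
      simp [X] at e0
      linarith

theorem t_IND : S_IND := ⟨ind1, ind2, ind3⟩

end Pool.Agent.V5helper62.SE
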